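import Mathlib

set_option autoImplicit false

namespace Pool.Agent.Helper99.CT

open FreeGroup (of)

/-! ### Definitions -/

/-- The index set of the generators `s_{p,q}`, `1 ≤ p < q ≤ n`, of the cactus group `J_n`. -/
structure Gen (n : ℕ) where
  /-- left end point -/
  p : ℕ
  /-- right end point -/
  q : ℕ
  one_le : 1 ≤ p
  lt : p < q
  le : q ≤ n

/-- The defining relators of the cactus group `J_n`. -/
inductive IsRelator (n : ℕ) : FreeGroup (Gen n) → Prop
  /-- `s_{p,q}^2 = 1` -/
  | square (g : Gen n) : IsRelator n (of g * of g)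
  /-- `s_{p,q} s_{m,r} = s_{m,r} s_{p,q}` if `[p,q]` and `[m,r]` are disjoint -/
  | disjoint (g h : Gen n) (hd : g.q < h.p ∨ h.q < g.p) :
      IsRelator n (of g * of h * (of h * of g)⁻¹)
  /-- `s_{p,q} s_{m,r} = s_{p+q-r,p+q-m} s_{p,q}` if `[m,r] ⊆ [p,q]` -/
  | nested (g h k : Gen n) (h₁ : g.p ≤ h.p) (h₂ : h.q ≤ g.q)
      (hp : k.p = g.p + g.q - h.q) (hq : k.q = g.p + g.q - h.p) :
      IsRelator n (of g * of h * (of k * of g)⁻¹)

/-- The cactus group `J_n`. -/
def Cactus (n : ℕ) : Type := PresentedGroup {w : FreeGroup (Gen n) | IsRelator n w}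

instance (n : ℕ) : Group (Cactus n) :=
  inferInstanceAs (Group (PresentedGroup {w : FreeGroup (Gen n) | IsRelator n w}))

/-- The cyclic group of order two. -/
abbrev C2 : Type := Multiplicative (ZMod 2)

/-- The automorphism of `A^r` that reverses the order of the coordinates. -/
def rev (A : Type) [Group A] (r : ℕ) : MulAut (Fin r → A) where
  toFun f := fun i => f i.rev
  invFun f := fun i => f i.rev
  left_inv f := by funext i; simp
  right_inv f := by funext i; simp
  map_mul' f g := rfl

/-- The action of the group of order two on `A^r` by reversing the order of the coordinates. -/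
def act (A : Type) [Group A] (r : ℕ) : C2 →* MulAut (Fin r → A) where
  toFun z := if z = 1 then 1 else rev A r
  map_one' := if_pos rfl
  map_mul' := by
    have hr : rev A r * rev A r = 1 := by
      ext f i; simp [rev]
    intro x y
    have hx : x = 1 ∨ x = Multiplicative.ofAdd 1 := by
      revert x; decide
    have hy : y = 1 ∨ y = Multiplicative.ofAdd 1 := by
      revert y; decide
    have h1 : (Multiplicative.ofAdd 1 : C2) ≠ 1 := by decide
    have h2 : (Multiplicative.ofAdd 1 : C2) * Multiplicative.ofAdd 1 = 1 := by decide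
    rcases hx with rfl | rfl <;> rcases hy with rfl | rfl <;> simp [h1, h2, hr]

/-- `A ≀_r ℤ/2`: the semidirect product of `A^r` with the group of order two, which acts by
reversing the order of the coordinates. -/
def wr (A : GrpCat.{0}) (r : ℕ) : GrpCat.{0} := GrpCat.of ((Fin r → A) ⋊[act A r] C2)

/-- `W(r_1, …, r_s)`, the group obtained from `ℤ/2` by applying the operations
`≀_{r_1} ℤ/2`, …, `≀_{r_s} ℤ/2` one after another. -/
def W (l : List ℕ) : GrpCat.{0} := l.foldl wr (GrpCat.of C2)

/-- `G` embeds into `H`: there is an injective homomorphism from `G` to `H`. -/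
def Embeds (G H : Type) [Group G] [Group H] : Prop := ∃ f : G →* H, Function.Injective f

/-! ### The permutation representation -/

variable {n m : ℕ}

/-- The generator `s_{p,q}`. -/
def s (g : Gen n) : Cactus n := PresentedGroup.of g

theorem s_sq (g : Gen n) : s g * s g = 1 := by
  have h : (PresentedGroup.mk {w : FreeGroup (Gen n) | IsRelator n w}) (of g * of g) = 1 :=
    PresentedGroup.one_of_mem (IsRelator.square g)
  rw [map_mul] at h
  exact h

theorem s_disj (g h : Gen n) (hd : g.q < h.p ∨ h.q < g.p) : s g * s h = s h * s g := by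
  have H : (PresentedGroup.mk {w : FreeGroup (Gen n) | IsRelator n w})
      (of g * of h * (of h * of g)⁻¹) = 1 :=
    PresentedGroup.one_of_mem (IsRelator.disjoint g h hd)
  rw [map_mul, map_inv, mul_inv_eq_one, map_mul, map_mul] at H
  exact H

theorem s_nest (g h k : Gen n) (h₁ : g.p ≤ h.p) (h₂ : h.q ≤ g.q)
    (hp : k.p = g.p + g.q - h.q) (hq : k.q = g.p + g.q - h.p) : s g * s h = s k * s g := by
  have H : (PresentedGroup.mk {w : FreeGroup (Gen n) | IsRelator n w})
      (of g * of h * (of k * of g)⁻¹) = 1 :=
    PresentedGroup.one_of_mem (IsRelator.nested g h k h₁ h₂ hp hq)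
  rw [map_mul, map_inv, mul_inv_eq_one, map_mul, map_mul] at H
  exact H

/-- The universal property of the cactus group. -/
def liftC {G : Type} [Group G] (f : Gen n → G) (h1 : ∀ g, f g * f g = 1)
    (h2 : ∀ g h : Gen n, (g.q < h.p ∨ h.q < g.p) → f g * f h = f h * f g)
    (h3 : ∀ g h k : Gen n, g.p ≤ h.p → h.q ≤ g.q → k.p = g.p + g.q - h.q →
      k.q = g.p + g.q - h.p → f g * f h = f k * f g) : Cactus n →* G :=
  PresentedGroup.toGroup (f := f) (by
    intro r hr
    induction hr with
    | square g => simpa using h1 g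
    | disjoint g h hd =>
      rw [map_mul, map_inv, mul_inv_eq_one]
      simpa using h2 g h hd
    | nested g h k h₁ h₂ hp hq =>
      rw [map_mul, map_inv, mul_inv_eq_one]
      simpa using h3 g h k h₁ h₂ hp hq)

@[simp] theorem liftC_s {G : Type} [Group G] (f : Gen n → G) (h1) (h2) (h3) (g : Gen n) :
    liftC f h1 h2 h3 (s g) = f g :=
  PresentedGroup.toGroup.of (G := G) (f := f) (rels := {w : FreeGroup (Gen n) | IsRelator n w}) _

/-- The induction principle of the cactus group. -/
theorem induction {P : Cactus n → Prop} (h1 : P 1) (h2 : ∀ g x, P x → P (s g * x)) (x : Cactus n) :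
    P x := by
  have h : x ∈ Subgroup.closure (Set.range (s (n := n))) := by
    have := PresentedGroup.closure_range_of {w : FreeGroup (Gen n) | IsRelator n w}
    have h3 : Subgroup.closure (Set.range (s (n := n))) = ⊤ := this
    rw [h3]; exact Subgroup.mem_top x
  induction h using Subgroup.closure_induction_left with
  | one => exact h1
  | mul_left x hx y hy ih =>
    obtain ⟨g, rfl⟩ := hx
    exact h2 g y ih
  | inv_mul_cancel x hx y hy ih =>
    obtain ⟨g, rfl⟩ := hx
    have : (s g)⁻¹ = s g := inv_eq_of_mul_eq_one_left (s_sq g)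
    rw [this]
    exact h2 g y ih

/-- The flip of the interval `[p,q]`. -/
def flipFun (g : Gen n) (i : Fin n) : Fin n :=
  if h : g.p ≤ i.1 + 1 ∧ i.1 + 1 ≤ g.q then
    ⟨g.p + g.q - 2 - i.1, by have := g.le; have := g.one_le; have := g.lt; omega⟩ else i

theorem flipFun_val (g : Gen n) (i : Fin n) : (flipFun g i).1 =
    if g.p ≤ i.1 + 1 ∧ i.1 + 1 ≤ g.q then g.p + g.q - 2 - i.1 else i.1 := by
  unfold flipFun
  split_ifs <;> rfl

theorem flipFun_flipFun (g : Gen n) (i : Fin n) : flipFun g (flipFun g i) = i := by
  apply Fin.ext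
  have := g.le; have := g.one_le; have := g.lt
  simp only [flipFun_val]
  split_ifs <;> omega

/-- The permutation of `Fin n` by which `s_{p,q}` acts. -/
def flip (g : Gen n) : Equiv.Perm (Fin n) where
  toFun := flipFun g
  invFun := flipFun g
  left_inv := flipFun_flipFun g
  right_inv := flipFun_flipFun g

/-- The homomorphism from `J_n` to the symmetric group. -/
def rho (n : ℕ) : Cactus n →* Equiv.Perm (Fin n) :=
  liftC flip (by
    intro g; ext i
    simp [flip, flipFun_flipFun]) (by
    intro g h hd; ext i
    have := g.le; have := g.one_le; have := g.lt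
    have := h.le; have := h.one_le; have := h.lt
    simp only [flip, Equiv.Perm.mul_apply, Equiv.coe_fn_mk, flipFun_val]
    split_ifs <;> omega) (by
    intro g h k h₁ h₂ hp hq; ext i
    have := g.le; have := g.one_le; have := g.lt
    have := h.le; have := h.one_le; have := h.lt
    simp only [flip, Equiv.Perm.mul_apply, Equiv.coe_fn_mk, flipFun_val]
    split_ifs <;> omega)

theorem rho_s (g : Gen n) (i : Fin n) : rho n (s g) i = flipFun g i := by
  simp [rho, flip]

/-! ### Dilations and shifts -/

/-- The interval of unit cells `[p,q]` dilated by the factor `c` and shifted by `a`. -/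
def dilGen (c : ℕ) (hc : 1 ≤ c) (a : ℕ) (hn : c * m + a ≤ n) (g : Gen m) : Gen n where
  p := c * (g.p - 1) + 1 + a
  q := c * g.q + a
  one_le := by omega
  lt := by
    have h1 := g.one_le
    have h2 : c * (g.p - 1 + 1) ≤ c * g.q := Nat.mul_le_mul_left c (by have := g.lt; omega)
    have h3 : c * (g.p - 1 + 2) ≤ c * g.q ∨ c * (g.p - 1 + 2) ≤ c * g.q := by
      have := Nat.mul_le_mul_left c (show g.p - 1 + 2 ≤ g.q by have := g.lt; omega)
      tauto
    rw [mul_add] at h2
    rw [mul_add] at h3
    omega
  le := by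
    have := Nat.mul_le_mul_left c g.le
    omega

/-- The homomorphism `s_{p,q} ↦ s_{c(p-1)+1+a, cq+a}` from `J_m` to `J_n`. -/
def dil (c : ℕ) (hc : 1 ≤ c) (a : ℕ) (hn : c * m + a ≤ n) : Cactus m →* Cactus n :=
  liftC (fun g => s (dilGen c hc a hn g)) (fun g => s_sq _) (by
    intro g h hd
    apply s_disj
    simp only [dilGen]
    rcases hd with hd | hd
    · have := Nat.mul_le_mul_left c (show g.q ≤ h.p - 1 by omega)
      omega
    · have := Nat.mul_le_mul_left c (show h.q ≤ g.p - 1 by omega)
      omega) (by
    intro g h k h₁ h₂ hp hq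
    have hg1 := g.one_le
    have hg2 := g.lt
    have hh1 := h.one_le
    have hh2 := h.lt
    have a1 := Nat.mul_le_mul_left c (show g.p - 1 ≤ h.p - 1 by omega)
    have a2 := Nat.mul_le_mul_left c h₂
    have a3 := Nat.mul_le_mul_left c (show h.p - 1 ≤ h.q by omega)
    have e1 : c * (k.p - 1) + c * h.q = c * (g.p - 1) + c * g.q := by
      rw [← mul_add, ← mul_add]; congr 1; omega
    have e2 : c * k.q + c * (h.p - 1) = c * (g.p - 1) + c * g.q := by
      rw [← mul_add, ← mul_add]; congr 1; omega
    apply s_nest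
    · simp only [dilGen]; omega
    · simp only [dilGen]; omega
    · simp only [dilGen]; omega
    · simp only [dilGen]; omega)

theorem dil_s (c : ℕ) (hc : 1 ≤ c) (a : ℕ) (hn : c * m + a ≤ n) (g : Gen m) :
    dil c hc a hn (s g) = s (dilGen c hc a hn g) := by
  simp [dil]

/-- The position of the `j`-th point of the `i`-th block. -/
def pos (c : ℕ) (a : ℕ) (hn : c * m + a ≤ n) (i : Fin m) (j : Fin c) : Fin n :=
  ⟨c * i.1 + a + j.1, by
    have := Nat.mul_le_mul_left c (show i.1 + 1 ≤ m from i.2)
    have := j.2
    rw [mul_add] at *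
    omega⟩

/-- The block structure is compatible with the permutation representations: blocks are permuted
by `dil x` as points are permuted by `x`. -/
theorem rho_dil (c : ℕ) (hc : 1 ≤ c) (a : ℕ) (hn : c * m + a ≤ n) (x : Cactus m) :
    ∀ (i : Fin m) (j : Fin c), ∃ j' : Fin c,
      rho n (dil c hc a hn x) (pos c a hn i j) = pos c a hn (rho m x i) j' := by
  induction x using induction with
  | h1 => intro i j; exact ⟨j, by simp⟩
  | h2 g x ih =>
    intro i j
    obtain ⟨j', hj'⟩ := ih i j
    rw [map_mul, map_mul, map_mul, Equiv.Perm.mul_apply, Equiv.Perm.mul_apply, hj', dil_s, rho_s,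
      rho_s]
    generalize rho m x i = i'
    have hg1 := g.one_le
    have hg2 := g.lt
    have hg3 := g.le
    have hj2 := j'.2
    by_cases hi : g.p ≤ i'.1 + 1 ∧ i'.1 + 1 ≤ g.q
    · refine ⟨j'.rev, ?_⟩
      apply Fin.ext
      have e0 : c * (g.p - 1) ≤ c * i'.1 := Nat.mul_le_mul_left c (by omega)
      have e0' : c * (i'.1 + 1) ≤ c * g.q := Nat.mul_le_mul_left c (by omega)
      have e1 : c * (g.p + g.q - 2 - i'.1) + c * (i'.1 + 1) = c * (g.p - 1) + c * g.q := by
        rw [← mul_add, ← mul_add]; congr 1; omega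
      have e2 : c * (i'.1 + 1) = c * i'.1 + c := by ring
      rw [flipFun_val, if_pos]
      · simp only [dilGen, pos, flipFun_val, if_pos hi, Fin.val_rev]
        omega
      · simp only [dilGen, pos]
        omega
    · refine ⟨j', ?_⟩
      apply Fin.ext
      rw [flipFun_val, if_neg]
      · simp only [pos, flipFun_val, if_neg hi]
      · simp only [dilGen, pos]
        intro ⟨h1, h2⟩
        apply hi
        constructor
        · by_contra hcon
          have := Nat.mul_le_mul_left c (show i'.1 + 1 ≤ g.p - 1 by omega)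
          rw [mul_add] at this
          omega
        · by_contra hcon
          have := Nat.mul_le_mul_left c (show g.q ≤ i'.1 by omega)
          omega

/-! ### Cabling -/

theorem C2_cases (z : C2) : z = 1 ∨ z = Multiplicative.ofAdd 1 := by
  revert z; decide

theorem C2_ne : (Multiplicative.ofAdd 1 : C2) ≠ 1 := by decide

/-- The homomorphism from the group of order two that is given by an involution. -/
def invHom {G : Type} [Group G] (x : G) (hx : x * x = 1) : C2 →* G where
  toFun z := if z = 1 then 1 else x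
  map_one' := if_pos rfl
  map_mul' := by
    intro a b
    have h2 : (Multiplicative.ofAdd 1 : C2) * Multiplicative.ofAdd 1 = 1 := by decide
    rcases C2_cases a with rfl | rfl <;> rcases C2_cases b with rfl | rfl <;>
      simp [h2, hx]

/-- The generator `s_{2i+1,2i+2}`. -/
def cell (hn : 2 * m + 0 ≤ n) (i : Fin m) : Gen n where
  p := 2 * i.1 + 1
  q := 2 * i.1 + 2
  one_le := by omega
  lt := by omega
  le := by have := i.2; omega

theorem cable_conj (hn : 2 * m + 0 ≤ n) (x : Cactus m) : ∀ (i : Fin m),
    dil 2 one_le_two 0 hn x * s (cell hn i) =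
      s (cell hn (rho m x i)) * dil 2 one_le_two 0 hn x := by
  induction x using induction with
  | h1 => intro i; simp
  | h2 g x ih =>
    intro i
    rw [map_mul, mul_assoc, ih i, map_mul, Equiv.Perm.mul_apply, ← mul_assoc, ← mul_assoc]
    congr 1
    rw [dil_s, rho_s]
    generalize rho m x i = i'
    have hg1 := g.one_le
    have hg2 := g.lt
    have hg3 := g.le
    by_cases hi : g.p ≤ i'.1 + 1 ∧ i'.1 + 1 ≤ g.q
    · apply s_nest
      · simp only [dilGen, cell]; omega
      · simp only [dilGen, cell]; omega
      · simp only [dilGen, cell, flipFun_val, if_pos hi]; omega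
      · simp only [dilGen, cell, flipFun_val, if_pos hi]; omega
    · have : flipFun g i' = i' := Fin.ext (by rw [flipFun_val, if_neg hi])
      rw [this]
      apply s_disj
      simp only [dilGen, cell]
      omega

theorem cell_comm (hn : 2 * m + 0 ≤ n) {i j : Fin m} (hij : i ≠ j) :
    s (cell hn i) * s (cell hn j) = s (cell hn j) * s (cell hn i) := by
  apply s_disj
  simp only [cell]
  have : i.1 ≠ j.1 := fun h => hij (Fin.ext h)
  omega

theorem cells_comm (hn : 2 * m + 0 ≤ n) : Pairwise fun i j : Fin m => ∀ x y : C2,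
    Commute (invHom (s (cell hn i)) (s_sq _) x) (invHom (s (cell hn j)) (s_sq _) y) := by
  intro i j hij x y
  rcases C2_cases x with rfl | rfl
  · simp
  rcases C2_cases y with rfl | rfl
  · simp
  have : ∀ i, invHom (s (cell hn i)) (s_sq _) (Multiplicative.ofAdd 1) = s (cell hn i) := by
    intro i; simp [invHom]
  rw [this, this]
  exact cell_comm hn hij

/-- The homomorphism `(ℤ/2)^m → J_n` given by the cells. -/
noncomputable def cells (hn : 2 * m + 0 ≤ n) : (Fin m → C2) →* Cactus n :=
  MonoidHom.noncommPiCoprod (fun i => invHom (s (cell hn i)) (s_sq _)) (cells_comm hn)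

theorem cells_single (hn : 2 * m + 0 ≤ n) (i : Fin m) (z : C2) :
    cells hn (Pi.mulSingle i z) = invHom (s (cell hn i)) (s_sq _) z :=
  MonoidHom.noncommPiCoprod_mulSingle _ _ _

/-- The action of the permutation group on `(ℤ/2)^m`. -/
def permAct (m : ℕ) : Equiv.Perm (Fin m) →* MulAut (Fin m → C2) where
  toFun σ :=
    { toFun := fun v i => v (σ.symm i)
      invFun := fun v i => v (σ i)
      left_inv := fun v => by funext i; simp
      right_inv := fun v => by funext i; simp
      map_mul' := fun v w => rfl }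
  map_one' := rfl
  map_mul' σ τ := rfl

theorem permAct_single (m : ℕ) (σ : Equiv.Perm (Fin m)) (i : Fin m) (z : C2) :
    permAct m σ (Pi.mulSingle i z) = Pi.mulSingle (σ i) z := by
  funext j
  show (Pi.mulSingle i z : Fin m → C2) (σ.symm j) = (Pi.mulSingle (σ i) z : Fin m → C2) j
  by_cases h : j = σ i
  · subst h; simp
  · have : σ.symm j ≠ i := fun h' => h (by rw [← h']; simp)
    rw [Pi.mulSingle_eq_of_ne this, Pi.mulSingle_eq_of_ne h]

/-- Action of the group of order two on a cell. -/
def cellAct (z : C2) (j : Fin 2) : Fin 2 := if z = 1 then j else j.rev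

theorem cellAct_mul (z w : C2) (j : Fin 2) : cellAct (z * w) j = cellAct z (cellAct w j) := by
  revert z w j; decide

theorem rho_cells (hn : 2 * m + 0 ≤ n) (v : Fin m → C2) (i : Fin m) (j : Fin 2) :
    rho n (cells hn v) (pos 2 0 hn i j) = pos 2 0 hn i (cellAct (v i) j) := by
  let H : Subgroup (Fin m → C2) :=
    { carrier := {v | ∀ (i : Fin m) (j : Fin 2),
        rho n (cells hn v) (pos 2 0 hn i j) = pos 2 0 hn i (cellAct (v i) j)}
      one_mem' := by intro i j; simp [cellAct]
      mul_mem' := by
        intro a b ha hb i j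
        rw [map_mul, map_mul, Equiv.Perm.mul_apply, hb, ha, Pi.mul_apply, cellAct_mul]
      inv_mem' := by
        intro a ha i j
        rw [map_inv, map_inv, Equiv.Perm.inv_eq_iff_eq, ha, ← cellAct_mul]
        simp [cellAct] }
  have key : v ∈ H := by
    apply Subgroup.pi_mem_of_mulSingle_mem
    intro k i j
    rw [cells_single]
    rcases C2_cases (v k) with h | h
    · rw [h]; simp [cellAct]
    · rw [h]
      have h1 : invHom (s (cell hn k)) (s_sq _) (Multiplicative.ofAdd 1) = s (cell hn k) := by
        simp [invHom]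
      rw [h1, rho_s]
      apply Fin.ext
      have hj := j.2
      by_cases hik : i = k
      · subst hik
        rw [Pi.mulSingle_eq_same]
        simp only [flipFun_val, cell, pos, cellAct, if_neg C2_ne, Fin.val_rev]
        split_ifs <;> omega
      · rw [Pi.mulSingle_eq_of_ne hik]
        have : i.1 ≠ k.1 := fun h => hik (Fin.ext h)
        simp only [flipFun_val, cell, pos, cellAct, if_true]
        split_ifs <;> omega
  exact key i j

/-- If a finite group `G` embeds into `J_m` and acts faithfully on the `m` points, then some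
group of order `2^m |G|` embeds into `J_n`, `n ≥ 2m`, and acts faithfully on the `n` points. -/
theorem cabling (hn : 2 * m ≤ n) (G : Type) [Group G] [Finite G] (f : G →* Cactus m)
    (hf : Function.Injective ((rho m).comp f)) :
    ∃ (G' : Type) (_ : Group G') (_ : Finite G'), Nat.card G' = 2 ^ m * Nat.card G ∧
      ∃ f' : G' →* Cactus n, Function.Injective ((rho n).comp f') := by
  have hn' : 2 * m + 0 ≤ n := hn
  let φ : G →* MulAut (Fin m → C2) := (permAct m).comp ((rho m).comp f)
  refine ⟨(Fin m → C2) ⋊[φ] G, inferInstance,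
    Finite.of_equiv _ (SemidirectProduct.equivProd (φ := φ)).symm, ?_, ?_⟩
  · rw [Nat.card_congr (SemidirectProduct.equivProd (φ := φ)), Nat.card_prod, Nat.card_pi]
    simp
  · refine ⟨SemidirectProduct.lift (cells hn') ((dil 2 one_le_two 0 hn').comp f) ?_, ?_⟩
    · intro g
      apply MonoidHom.pi_ext
      intro i z
      show cells hn' (permAct m (rho m (f g)) (Pi.mulSingle i z)) =
        (MulAut.conj (dil 2 one_le_two 0 hn' (f g))) (cells hn' (Pi.mulSingle i z))
      rw [permAct_single, cells_single, cells_single, MulAut.conj_apply, eq_mul_inv_iff_mul_eq]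
      rcases C2_cases z with rfl | rfl
      · simp
      · have : ∀ i, invHom (s (cell hn' i)) (s_sq _) (Multiplicative.ofAdd 1) =
            s (cell hn' i) := by
          intro i; simp [invHom]
        rw [this, this]
        exact (cable_conj hn' (f g) i).symm
    · rw [injective_iff_map_eq_one]
      rintro ⟨v, g⟩ h
      have h0 : rho n (cells hn' v) * rho n (dil 2 one_le_two 0 hn' (f g)) = 1 := by
        rw [← map_mul]
        exact h
      have hg : g = 1 := by
        apply hf
        rw [map_one]
        ext i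
        obtain ⟨j', hj'⟩ := rho_dil 2 one_le_two 0 hn' (f g) i 0
        have h1 := congrArg (fun σ => σ (pos 2 0 hn' i 0)) h0
        simp only [Equiv.Perm.mul_apply, hj', rho_cells, Equiv.Perm.one_apply] at h1
        have h2 := congrArg Fin.val h1
        simp only [pos] at h2
        have := (cellAct (v (rho m (f g) i)) j').2
        simp only [MonoidHom.comp_apply, Equiv.Perm.one_apply]
        simp only [Fin.val_zero] at h2
        omega
      subst hg
      have hv : v = 1 := by
        funext i
        rw [map_one, map_one, map_one, mul_one] at h0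
        have h1 := congrArg (fun σ => σ (pos 2 0 hn' i 0)) h0
        simp only [rho_cells, Equiv.Perm.one_apply] at h1
        rcases C2_cases (v i) with h2 | h2
        · rw [h2]; rfl
        · exfalso
          rw [h2] at h1
          have h3 := congrArg Fin.val h1
          simp only [pos, cellAct, if_neg C2_ne] at h3
          simp at h3
      subst hv
      rfl

/-- The cactus group `J_n` contains a group whose order is the highest power of two that
divides `n!`. -/
theorem exists_big (n : ℕ) :
    ∃ (G : Type) (_ : Group G) (_ : Finite G), Nat.card G = 2 ^ padicValNat 2 n.factorial ∧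
      ∃ f : G →* Cactus n, Function.Injective ((rho n).comp f) := by
  induction n using Nat.strong_induction_on with
  | _ n ih =>
    rcases Nat.lt_or_ge n 2 with h | h
    · refine ⟨PUnit, inferInstance, inferInstance, ?_, 1, ?_⟩
      · interval_cases n <;> simp
      · intro a b _; rfl
    · obtain ⟨G, hG, hfin, hcard, f, hf⟩ := ih (n / 2) (by omega)
      obtain ⟨G', hG', hfin', hcard', f', hf'⟩ := cabling (n := n) (by omega) G f hf
      refine ⟨G', hG', hfin', ?_, f', hf'⟩
      rw [hcard', hcard, ← pow_add]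
      congr 1
      have h1 : n = 2 * (n / 2) + n % 2 := (Nat.div_add_mod n 2).symm
      conv_rhs => rw [h1]
      rw [padicValNat_factorial_mul_add _ (Nat.mod_lt _ (by norm_num)), padicValNat_factorial_mul]
      omega

/-! ### Orders of the groups `W(r_1, …, r_s)` -/

/-- The exponent of two in `k!`. -/
def nu (k : ℕ) : ℕ := padicValNat 2 k.factorial

theorem nu_mono {a b : ℕ} (h : a ≤ b) : nu a ≤ nu b := by
  unfold nu
  rw [← Nat.pow_dvd_iff_le_padicValNat (by norm_num) (Nat.factorial_ne_zero b)]
  exact pow_padicValNat_dvd.trans (Nat.factorial_dvd_factorial h)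

theorem nu_half (n : ℕ) : nu n = n / 2 + nu (n / 2) := by
  unfold nu
  have h1 : n = 2 * (n / 2) + n % 2 := (Nat.div_add_mod n 2).symm
  conv_lhs => rw [h1]
  rw [padicValNat_factorial_mul_add _ (Nat.mod_lt _ (by norm_num)), padicValNat_factorial_mul]
  omega

theorem nu_two_mul (n : ℕ) : nu (2 * n) = n + nu n := by
  rw [nu_half, Nat.mul_div_cancel_left _ (by norm_num)]

/-- The exponent of two in the order of the groups obtained from a group of order `2^c`. -/
def ex (c : ℕ) (l : List ℕ) : ℕ := l.foldl (fun c r => r * c + 1) c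

theorem ex_eq (c : ℕ) (l : List ℕ) : ex c l = c * l.prod + ex 0 l := by
  induction l generalizing c with
  | nil => simp [ex]
  | cons r l ih =>
    have h1 : ex c (r :: l) = ex (r * c + 1) l := rfl
    have h2 : ex 0 (r :: l) = ex (r * 0 + 1) l := rfl
    rw [h1, h2, ih (r * c + 1), ih (r * 0 + 1), List.prod_cons]
    ring

theorem ex_cons (r : ℕ) (l : List ℕ) : ex 1 (r :: l) = r * l.prod + ex 1 l := by
  have h1 : ex 1 (r :: l) = ex (r * 1 + 1) l := rfl
  rw [h1, ex_eq, ex_eq 1 l]
  ring

theorem card_wr (A : GrpCat.{0}) (r : ℕ) : Nat.card (wr A r) = Nat.card A ^ r * 2 := by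
  have h : Nat.card (wr A r) = Nat.card ((Fin r → A) × C2) :=
    Nat.card_congr (SemidirectProduct.equivProd (φ := act A r))
  rw [h, Nat.card_prod, Nat.card_fun]
  simp

theorem finite_wr (A : GrpCat.{0}) (r : ℕ) [Finite A] : Finite (wr A r) :=
  Finite.of_equiv _ (SemidirectProduct.equivProd (φ := act A r)).symm

theorem card_foldl (l : List ℕ) : ∀ (A : GrpCat.{0}) (c : ℕ), Finite A → Nat.card A = 2 ^ c →
    Finite (l.foldl wr A : GrpCat.{0}) ∧ Nat.card (l.foldl wr A : GrpCat.{0}) = 2 ^ ex c l := by
  induction l with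
  | nil => intro A c hA hc; exact ⟨hA, hc⟩
  | cons r l ih =>
    intro A c hA hc
    apply ih (wr A r) (r * c + 1) (finite_wr A r)
    rw [card_wr, hc, ← pow_mul, pow_succ, mul_comm c r]

theorem card_W (l : List ℕ) : Finite (W l) ∧ Nat.card (W l) = 2 ^ ex 1 l :=
  card_foldl l _ 1 (inferInstanceAs (Finite C2)) (by
    show Nat.card C2 = 2 ^ 1
    simp)

theorem prod_pos' {l : List ℕ} (hl : ∀ r ∈ l, 2 ≤ r) : 1 ≤ l.prod :=
  Nat.one_le_iff_ne_zero.mpr (List.prod_ne_zero (fun h => by have := hl 0 h; omega))

theorem ex_le {l : List ℕ} (hl : ∀ r ∈ l, 2 ≤ r) : ex 1 l ≤ nu (2 * l.prod) := by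
  induction l with
  | nil => simp [ex, nu]
  | cons r l ih =>
    have hl' : ∀ r ∈ l, 2 ≤ r := fun r hr => hl r (List.mem_cons_of_mem _ hr)
    have hr : 2 ≤ r := hl r (List.mem_cons_self)
    rw [ex_cons, List.prod_cons, nu_two_mul]
    have h1 := ih hl'
    have h2 := nu_mono (Nat.mul_le_mul_right l.prod hr)
    omega

theorem ex_eq_nu {l : List ℕ} (hl : ∀ r ∈ l, 2 ≤ r) (h : ex 1 l = nu (2 * l.prod)) :
    ∃ a, l.prod = 2 ^ a ∨ l.prod = 3 * 2 ^ a := by
  induction l with
  | nil => exact ⟨0, by simp⟩
  | cons r l ih =>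
    have hl' : ∀ r ∈ l, 2 ≤ r := fun r hr => hl r (List.mem_cons_of_mem _ hr)
    have hr : 2 ≤ r := hl r (List.mem_cons_self)
    rw [ex_cons, List.prod_cons, nu_two_mul] at h
    have h1 := ex_le hl'
    have h2 := nu_mono (Nat.mul_le_mul_right l.prod hr)
    have hpos := prod_pos' hl'
    have h3 : ex 1 l = nu (2 * l.prod) := by omega
    obtain ⟨a, ha⟩ := ih hl' h3
    have h4 : nu (r * l.prod) = nu (2 * l.prod) := by omega
    have h5 : r * l.prod < 2 * (l.prod + 1) := by
      by_contra hcon
      have h6 := nu_mono (not_lt.mp hcon)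
      rw [nu_two_mul] at h6
      have h7 := nu_mono (Nat.le_succ l.prod)
      have h8 := nu_two_mul l.prod
      simp only [Nat.succ_eq_add_one] at h7
      omega
    rw [List.prod_cons]
    rcases Nat.lt_or_ge r 3 with h6 | h6
    · have : r = 2 := by omega
      subst this
      rcases ha with ha | ha
      · exact ⟨a + 1, Or.inl (by rw [ha]; ring)⟩
      · exact ⟨a + 1, Or.inr (by rw [ha]; ring)⟩
    · have h7 : 3 * l.prod ≤ r * l.prod := Nat.mul_le_mul_right _ h6
      have h8 : l.prod = 1 := by omega
      rw [h8] at h5 ⊢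
      have : r = 3 := by omega
      subst this
      exact ⟨0, Or.inr (by norm_num)⟩

theorem nu_le_ex {n : ℕ} {l : List ℕ} (hl : ∀ r ∈ l, 2 ≤ r) (hn : 2 * l.prod ≤ n)
    (h : nu n ≤ ex 1 l) : ∃ a, n / 2 = 2 ^ a ∨ n / 2 = 3 * 2 ^ a := by
  have h1 := ex_le hl
  have h2 := nu_mono hn
  have h3 : ex 1 l = nu (2 * l.prod) := by omega
  have h4 : nu n = nu (2 * l.prod) := by omega
  have h5 : n < 2 * (l.prod + 1) := by
    by_contra hcon
    have h6 := nu_mono (not_lt.mp hcon)
    rw [nu_two_mul] at h6
    have h7 := nu_mono (Nat.le_succ l.prod)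
    have h8 := nu_two_mul l.prod
    simp only [Nat.succ_eq_add_one] at h7
    omega
  have h6 : n / 2 = l.prod := by omega
  rw [h6]
  exact ex_eq_nu hl h3

/-- The negative part: if `⌊n/2⌋` is neither a power of two nor three times a power of two, then
some finite group embeds into `J_n` but into no `W(r_1, …, r_s)` with `r_1 ⋯ r_s ≤ n/2`. -/
theorem negative (n : ℕ) (hn : ¬ ∃ a, n / 2 = 2 ^ a ∨ n / 2 = 3 * 2 ^ a) :
    ∃ (G : Type) (_ : Group G) (_ : Finite G), Embeds G (Cactus n) ∧
      ¬ ∃ l : List ℕ, (∀ r ∈ l, 2 ≤ r) ∧ 2 * l.prod ≤ n ∧ Embeds G (W l) := by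
  obtain ⟨G, hG, hfin, hcard, f, hf⟩ := exists_big n
  refine ⟨G, hG, hfin, ⟨f, fun a b hab => hf (by simp [hab])⟩, ?_⟩
  rintro ⟨l, hl, hln, g, hg⟩
  apply hn
  apply nu_le_ex hl hln
  obtain ⟨h1, h2⟩ := card_W l
  have h3 : Nat.card G ≤ Nat.card (W l) := Nat.card_le_card_of_injective g hg
  rw [hcard, h2] at h3
  exact (Nat.pow_le_pow_iff_right (by norm_num)).mp h3

end Pool.Agent.Helper99.CT
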