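import Mathlib
import Pool.Agent.Helper99.CT.Base

/-!
Project CT (cactus groups, MP_2b0b8a_al): definitions and goals.
Words in the generators of `J_n` and their letters; reduced words for a compatibility relation.
-/

set_option autoImplicit false

namespace Pool.Agent.Helper99.CT

/-! ### Words over an alphabet with a compatibility (commutation) relation -/

section Trace

variable {α : Type} (C : α → α → Prop)

/-- The letter `v` occurs in the word and all letters before some occurrence are compatible
with `v`: `v` can be moved to the front. -/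
def First (v : α) : List α → Prop
  | [] => False
  | a :: u => a = v ∨ (C a v ∧ First v u)

/-- No two equal letters have only compatible letters between them. -/
def Red : List α → Prop
  | [] => True
  | a :: u => ¬ First C a u ∧ Red u

/-- The permutations of the alphabet that preserve the relation. -/
def AutC : Subgroup (Equiv.Perm α) where
  carrier := {π | ∀ a b, C (π a) (π b) ↔ C a b}
  mul_mem' := by
    intro x y hx hy a b
    exact (hx _ _).trans (hy _ _)
  one_mem' := fun a b => Iff.rfl
  inv_mem' := by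
    intro x hx a b
    have h := hx (x⁻¹ a) (x⁻¹ b)
    simpa using h.symm

end Trace

/-! ### Words in the generators of the cactus group -/

variable {n : ℕ}

/-- The points of the interval `[p,q]`. -/
def pts (g : Gen n) : Finset (Fin n) :=
  Finset.univ.filter (fun i => g.p ≤ i.1 + 1 ∧ i.1 + 1 ≤ g.q)

/-- Two sets are compatible: nested or disjoint. -/
def Comp (S T : Finset (Fin n)) : Prop := S ⊆ T ∨ T ⊆ S ∨ Disjoint S T

/-- The action of a permutation on sets. -/
def mv (π : Equiv.Perm (Fin n)) (S : Finset (Fin n)) : Finset (Fin n) := S.map π.toEmbedding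

/-- The letters of a word in the generators. -/
def letters : List (Gen n) → List (Finset (Fin n))
  | [] => []
  | g :: L => pts g :: (letters L).map (mv (flip g))

/-- The element of the cactus group that a word represents. -/
def word (L : List (Gen n)) : Cactus n := (L.map s).prod

/-! ### Goals -/

/-- TR: faithful-enough action of the right-angled Coxeter group. -/
def GoalTR : Prop := ∀ (α : Type) [DecidableEq α] (C : α → α → Prop), (∀ a b, C a b → C b a) → (∀ a, C a a) →
  ∃ (Q : Type) (q₀ : Q) (τ : α → Equiv.Perm Q) (μ : AutC C →* Equiv.Perm Q),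
    (∀ a, τ a * τ a = 1) ∧ (∀ a b, C a b → τ a * τ b = τ b * τ a) ∧
    (∀ (π : AutC C) (a : α), μ π * τ a = τ (π.1 a) * μ π) ∧ (∀ π, μ π q₀ = q₀) ∧
    (∀ w : List α, (w.map τ).prod q₀ = q₀ → w ≠ [] → ¬ Red C w) ∧
    (∀ w : List α, (w.map τ).prod q₀ = q₀ → ∀ v, Even (w.count v))

/-- DEL: the deletion lemma and the parity lemma in the cactus group. -/
def GoalDel : Prop := ∀ (n : ℕ) (L : List (Gen n)), word L = 1 →
  (L ≠ [] → ¬ Red Comp (letters L)) ∧ ∀ v, Even ((letters L).count v)

/-- EXT: a letter that can be moved to the front is a first generator. -/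
def GoalExt : Prop := ∀ (n : ℕ) (v : Finset (Fin n)) (L : List (Gen n)),
  First Comp v (letters L) → ∃ (h : Gen n) (L₁ : List (Gen n)), pts h = v ∧
    L₁.length + 1 = L.length ∧ word L = s h * word L₁ ∧
    letters L₁ = ((letters L).erase v).map (mv (flip h))

/-- SHO: a word that is not reduced can be shortened. -/
def GoalShort : Prop := ∀ (n : ℕ) (L : List (Gen n)), ¬ Red Comp (letters L) →
  ∃ L' : List (Gen n), L'.length < L.length ∧ word L' = word L

/-- CRO: crossing letters of a pure torsion word do not both occur an odd number of times. -/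
def GoalCross : Prop := ∀ (n : ℕ) (L : List (Gen n)) (k : ℕ), 0 < k → rho n (word L) = 1 →
  (word L) ^ k = 1 → ∀ S T : Finset (Fin n), ¬ Comp S T →
    ¬ (Odd ((letters L).count S) ∧ Odd ((letters L).count T))

/-- ORD: in a pure word every pair of points lies in an even number of letters. -/
def GoalOrd : Prop := ∀ (n : ℕ) (L : List (Gen n)), rho n (word L) = 1 →
  ∀ i j : Fin n, i ≠ j → Even ((letters L).countP (fun S => i ∈ S ∧ j ∈ S))

/-- LAM: the combinatorial lemma on laminar families. -/
def GoalLam : Prop := ∀ (n : ℕ) (w : List (Finset (Fin n))), (∀ S ∈ w, 2 ≤ S.card) →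
  (∀ S T : Finset (Fin n), ¬ Comp S T → ¬ (Odd (w.count S) ∧ Odd (w.count T))) →
  (∀ i j : Fin n, i ≠ j → Even (w.countP (fun S => i ∈ S ∧ j ∈ S))) →
  ∀ S, Even (w.count S)

/-- EVE: all letters of a pure torsion word occur an even number of times. -/
def GoalEven : Prop := ∀ (n : ℕ) (L : List (Gen n)) (k : ℕ), 0 < k → rho n (word L) = 1 →
  (word L) ^ k = 1 → ∀ S, Even ((letters L).count S)

/-- PUR: the pure cactus group is torsion-free. -/
def GoalPure : Prop := ∀ (n : ℕ) (x : Cactus n) (k : ℕ), 0 < k → rho n x = 1 → x ^ k = 1 → x = 1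

/-- ODD: the cactus group has no elements of odd order. -/
def GoalOdd : Prop := ∀ (n : ℕ) (x : Cactus n) (k : ℕ), Odd k → x ^ k = 1 → x = 1

/-- SYL: every 2-subgroup of the symmetric group embeds into the cactus group. -/
def GoalSyl : Prop := ∀ (n : ℕ) (G : Type) [Group G] [Finite G], IsPGroup 2 G →
  Embeds G (Equiv.Perm (Fin n)) → Embeds G (Cactus n)

/-- WPE: the groups `W(r_1, …, r_s)` with `2 r_1 ⋯ r_s ≤ n` are 2-groups and embed into `S_n`. -/
def GoalWPerm : Prop := ∀ (n : ℕ) (l : List ℕ), (∀ r ∈ l, 2 ≤ r) → 2 * l.prod ≤ n →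
  Finite (W l) ∧ IsPGroup 2 (W l) ∧ Embeds (W l) (Equiv.Perm (Fin n))

/-- WSY: if `⌊n/2⌋ = 2^a` or `3·2^a`, some admissible `W(r_1, …, r_s)` contains all 2-subgroups
of `S_n`. -/
def GoalWSyl : Prop := ∀ (n : ℕ), 2 ≤ n → (∃ a : ℕ, n / 2 = 2 ^ a ∨ n / 2 = 3 * 2 ^ a) →
  ∃ l : List ℕ, (∀ r ∈ l, 2 ≤ r) ∧ 2 * l.prod ≤ n ∧
    ∀ (G : Type) [Group G] [Finite G], IsPGroup 2 G → Embeds G (Equiv.Perm (Fin n)) →
      Embeds G (W l)

end Pool.Agent.Helper99.CT
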