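import Mathlib
import Pool.Agent.Helper99.CT.Defs

/-! Project CT: general lemmas on words, letters and relabelings. -/

set_option autoImplicit false

namespace Pool.Agent.Helper99.CT

/-! ### General alphabets -/

section General

variable {α : Type} {C : α → α → Prop}

theorem First.mem {v : α} {u : List α} (h : First C v u) : v ∈ u := by
  induction u with
  | nil => exact h.elim
  | cons a u ih =>
    rcases h with h | ⟨-, h⟩
    · rw [h]; exact List.mem_cons_self
    · exact List.mem_cons_of_mem _ (ih h)

theorem First.append {v : α} {u : List α} (h : First C v u) (w : List α) :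
    First C v (u ++ w) := by
  induction u with
  | nil => exact h.elim
  | cons a u ih =>
    rcases h with h | ⟨h1, h⟩
    · exact Or.inl h
    · exact Or.inr ⟨h1, ih h⟩

theorem first_append_right {v : α} {u w : List α} (hu : ∀ x ∈ u, C x v) (h : First C v w) :
    First C v (u ++ w) := by
  induction u with
  | nil => exact h
  | cons a u ih =>
    exact Or.inr ⟨hu a List.mem_cons_self, ih fun x hx => hu x (List.mem_cons_of_mem _ hx)⟩

theorem first_of_append {v : α} {u w : List α} (h : First C v (u ++ w)) (hm : v ∈ u) :
    First C v u := by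
  induction u with
  | nil => simp at hm
  | cons a u ih =>
    by_cases ha : a = v
    · exact Or.inl ha
    · rcases h with h | ⟨h1, h⟩
      · exact Or.inl h
      · refine Or.inr ⟨h1, ih h ?_⟩
        rcases List.mem_cons.1 hm with h | h
        · exact absurd h.symm ha
        · exact h

theorem first_append_elim {v : α} {u w : List α} (h : First C v (u ++ w)) (hm : v ∉ u) :
    (∀ x ∈ u, C x v) ∧ First C v w := by
  induction u with
  | nil => exact ⟨by simp, h⟩
  | cons a u ih =>
    rcases h with h | ⟨h1, h⟩
    · exact absurd (by rw [h]; exact List.mem_cons_self) hm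
    · obtain ⟨k1, k2⟩ := ih h (fun h2 => hm (List.mem_cons_of_mem _ h2))
      refine ⟨?_, k2⟩
      intro x hx
      rcases List.mem_cons.1 hx with rfl | hx
      · exact h1
      · exact k1 x hx

theorem not_red_append {u w : List α} (h : ¬ Red C (u ++ w)) :
    (∃ (a : List α) (v : α) (b : List α), u = a ++ v :: b ∧ First C v (b ++ w)) ∨ ¬ Red C w := by
  induction u with
  | nil => exact Or.inr h
  | cons x u ih =>
    by_cases h1 : First C x (u ++ w)
    · exact Or.inl ⟨[], x, u, rfl, h1⟩
    · have h2 : ¬ Red C (u ++ w) := fun h3 => h ⟨h1, h3⟩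
      rcases ih h2 with ⟨a, v, b, h3, h4⟩ | h3
      · exact Or.inl ⟨x :: a, v, b, by rw [h3]; rfl, h4⟩
      · exact Or.inr h3

theorem Red.tail {a : α} {u : List α} (h : Red C (a :: u)) : Red C u := h.2

theorem Red.right {u w : List α} (h : Red C (u ++ w)) : Red C w := by
  induction u with
  | nil => exact h
  | cons a u ih => exact ih h.2

theorem not_red_of_first {v : α} {u : List α} (h : First C v u) : ¬ Red C (v :: u) :=
  fun h2 => h2.1 h

theorem first_map_iff (π : AutC C) (v : α) (u : List α) :
    First C (π.1 v) (u.map π.1) ↔ First C v u := by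
  induction u with
  | nil => rfl
  | cons a u ih =>
    show (π.1 a = π.1 v ∨ (C (π.1 a) (π.1 v) ∧ First C (π.1 v) (u.map π.1))) ↔ _
    rw [ih, π.2 a v, π.1.injective.eq_iff]
    rfl

theorem red_map_iff (π : AutC C) (u : List α) : Red C (u.map π.1) ↔ Red C u := by
  induction u with
  | nil => rfl
  | cons a u ih =>
    show (¬ First C (π.1 a) (u.map π.1) ∧ Red C (u.map π.1)) ↔ _
    rw [ih, first_map_iff]
    rfl

end General

/-! ### Sets of points -/

variable {n : ℕ}

theorem mv_mul (π σ : Equiv.Perm (Fin n)) (S : Finset (Fin n)) :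
    mv (π * σ) S = mv π (mv σ S) := by
  unfold mv
  ext i
  simp only [Finset.mem_map, Equiv.coe_toEmbedding, Equiv.Perm.mul_apply]
  constructor
  · rintro ⟨a, ha, rfl⟩
    exact ⟨σ a, ⟨a, ha, rfl⟩, rfl⟩
  · rintro ⟨b, ⟨a, ha, rfl⟩, rfl⟩
    exact ⟨a, ha, rfl⟩

@[simp] theorem mv_one (S : Finset (Fin n)) : mv 1 S = S := by
  unfold mv
  ext i
  simp only [Finset.mem_map, Equiv.coe_toEmbedding, Equiv.Perm.one_apply]
  constructor
  · rintro ⟨a, ha, rfl⟩
    exact ha
  · intro h
    exact ⟨i, h, rfl⟩

theorem mem_mv (π : Equiv.Perm (Fin n)) (S : Finset (Fin n)) (i : Fin n) :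
    i ∈ mv π S ↔ π⁻¹ i ∈ S := by
  unfold mv
  simp only [Finset.mem_map, Equiv.coe_toEmbedding]
  constructor
  · rintro ⟨a, ha, rfl⟩
    simpa using ha
  · intro h
    exact ⟨π⁻¹ i, h, by simp⟩

theorem mv_injective (π : Equiv.Perm (Fin n)) : Function.Injective (mv π) :=
  fun _ _ h => Finset.map_injective _ h

@[simp] theorem mv_inv_mv (π : Equiv.Perm (Fin n)) (S : Finset (Fin n)) : mv π⁻¹ (mv π S) = S := by
  rw [← mv_mul, inv_mul_cancel, mv_one]

@[simp] theorem mv_mv_inv (π : Equiv.Perm (Fin n)) (S : Finset (Fin n)) : mv π (mv π⁻¹ S) = S := by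
  rw [← mv_mul, mul_inv_cancel, mv_one]

theorem comp_symm {S T : Finset (Fin n)} (h : Comp S T) : Comp T S := by
  rcases h with h | h | h
  · exact Or.inr (Or.inl h)
  · exact Or.inl h
  · exact Or.inr (Or.inr h.symm)

theorem comp_refl (S : Finset (Fin n)) : Comp S S := Or.inl (Finset.Subset.refl S)

theorem comp_mv (π : Equiv.Perm (Fin n)) (S T : Finset (Fin n)) :
    Comp (mv π S) (mv π T) ↔ Comp S T := by
  unfold Comp mv
  rw [Finset.map_subset_map, Finset.map_subset_map, Finset.disjoint_map]

/-- A permutation of the points as a permutation of the sets that preserves compatibility. -/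
def mvAut (π : Equiv.Perm (Fin n)) : AutC (Comp (n := n)) :=
  ⟨{ toFun := mv π
     invFun := mv π⁻¹
     left_inv := mv_inv_mv π
     right_inv := mv_mv_inv π }, fun S T => comp_mv π S T⟩

@[simp] theorem mvAut_apply (π : Equiv.Perm (Fin n)) (S : Finset (Fin n)) :
    (mvAut π).1 S = mv π S := rfl

theorem first_mv (π : Equiv.Perm (Fin n)) (v : Finset (Fin n)) (u : List (Finset (Fin n))) :
    First Comp (mv π v) (u.map (mv π)) ↔ First Comp v u := first_map_iff (mvAut π) v u

theorem red_mv (π : Equiv.Perm (Fin n)) (u : List (Finset (Fin n))) :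
    Red Comp (u.map (mv π)) ↔ Red Comp u := red_map_iff (mvAut π) u

/-! ### Words -/

theorem rho_s' (g : Gen n) : rho n (s g) = flip g := by
  ext i
  rw [rho_s]
  rfl

theorem word_cons (g : Gen n) (L : List (Gen n)) : word (g :: L) = s g * word L := by
  unfold word
  rw [List.map_cons, List.prod_cons]

@[simp] theorem word_nil : word ([] : List (Gen n)) = 1 := rfl

theorem word_append (A B : List (Gen n)) : word (A ++ B) = word A * word B := by
  unfold word
  rw [List.map_append, List.prod_append]

theorem rho_word_cons (g : Gen n) (L : List (Gen n)) :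
    rho n (word (g :: L)) = flip g * rho n (word L) := by
  rw [word_cons, map_mul, rho_s']

theorem exists_word (x : Cactus n) : ∃ L : List (Gen n), word L = x := by
  induction x using induction with
  | h1 => exact ⟨[], rfl⟩
  | h2 g x ih =>
    obtain ⟨L, rfl⟩ := ih
    exact ⟨g :: L, word_cons g L⟩

theorem letters_nil : letters ([] : List (Gen n)) = [] := rfl

theorem letters_cons (g : Gen n) (L : List (Gen n)) :
    letters (g :: L) = pts g :: (letters L).map (mv (flip g)) := rfl

theorem map_mv_mv (π σ : Equiv.Perm (Fin n)) (u : List (Finset (Fin n))) :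
    (u.map (mv σ)).map (mv π) = u.map (mv (π * σ)) := by
  rw [List.map_map]
  apply List.map_congr_left
  intro S _
  exact (mv_mul π σ S).symm

theorem map_mv_one (u : List (Finset (Fin n))) : u.map (mv 1) = u := by
  conv_rhs => rw [← List.map_id u]
  apply List.map_congr_left
  intro S _
  simp

theorem letters_append (A B : List (Gen n)) :
    letters (A ++ B) = letters A ++ (letters B).map (mv (rho n (word A))) := by
  induction A with
  | nil => rw [List.nil_append, letters_nil, List.nil_append, word_nil, map_one, map_mv_one]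
  | cons g A ih =>
    rw [List.cons_append, letters_cons, ih, List.map_append, map_mv_mv, letters_cons,
      List.cons_append, rho_word_cons]

@[simp] theorem length_letters (L : List (Gen n)) : (letters L).length = L.length := by
  induction L with
  | nil => rfl
  | cons g L ih => rw [letters_cons, List.length_cons, List.length_map, ih, List.length_cons]

theorem flip_mul_flip (g : Gen n) : flip g * flip g = 1 := by
  ext i
  rw [Equiv.Perm.mul_apply]
  show ((flipFun g (flipFun g i) : Fin n) : ℕ) = _
  rw [flipFun_flipFun]
  rfl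

theorem flip_inv (g : Gen n) : (flip g)⁻¹ = flip g := inv_eq_of_mul_eq_one_left (flip_mul_flip g)

/-- the `k`-fold repetition of a word -/
def rep (k : ℕ) (L : List (Gen n)) : List (Gen n) := (List.replicate k L).flatten

theorem rep_zero (L : List (Gen n)) : rep 0 L = [] := rfl

theorem rep_succ (k : ℕ) (L : List (Gen n)) : rep (k + 1) L = L ++ rep k L := by
  unfold rep
  rw [List.replicate_succ, List.flatten_cons]

theorem word_rep (k : ℕ) (L : List (Gen n)) : word (rep k L) = (word L) ^ k := by
  induction k with
  | zero => rw [rep_zero, word_nil, pow_zero]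
  | succ k ih => rw [rep_succ, word_append, ih, pow_succ']

/-- the letters of the `k`-fold repetition: the blocks are moved by the powers of the
permutation of the word -/
def blocks (σ : Equiv.Perm (Fin n)) (w : List (Finset (Fin n))) : ℕ → List (Finset (Fin n))
  | 0 => []
  | k + 1 => w ++ (blocks σ w k).map (mv σ)

theorem letters_rep (k : ℕ) (L : List (Gen n)) :
    letters (rep k L) = blocks (rho n (word L)) (letters L) k := by
  induction k with
  | zero => rfl
  | succ k ih => rw [rep_succ, letters_append, ih]; rfl

theorem blocks_map (π σ : Equiv.Perm (Fin n)) (w : List (Finset (Fin n))) (k : ℕ) :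
    (blocks σ w k).map (mv π) = blocks (π * σ * π⁻¹) (w.map (mv π)) k := by
  induction k with
  | zero => rfl
  | succ k ih =>
    show (w ++ (blocks σ w k).map (mv σ)).map (mv π) = _
    rw [List.map_append, map_mv_mv]
    show _ = w.map (mv π) ++ (blocks (π * σ * π⁻¹) (w.map (mv π)) k).map (mv (π * σ * π⁻¹))
    rw [← ih, map_mv_mv]
    congr 2
    group

end Pool.Agent.Helper99.CT
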