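import Mathlib
import Pool.Agent.Helper99.CT.Defs

/-! Project CT: assembly of the final theorems from the goals. -/

set_option autoImplicit false

namespace Pool.Agent.Helper99.CT

theorem card_pts {n : ℕ} (g : Gen n) : 2 ≤ (pts g).card := by
  have h1 := g.one_le
  have h2 := g.lt
  have h3 := g.le
  have hsub : ({⟨g.p - 1, by omega⟩, ⟨g.q - 1, by omega⟩} : Finset (Fin n)) ⊆ pts g := by
    intro i hi
    simp only [Finset.mem_insert, Finset.mem_singleton] at hi
    unfold pts
    rw [Finset.mem_filter]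
    rcases hi with rfl | rfl
    · refine ⟨Finset.mem_univ _, ?_, ?_⟩ <;> simp only <;> omega
    · refine ⟨Finset.mem_univ _, ?_, ?_⟩ <;> simp only <;> omega
  have h4 : ({⟨g.p - 1, by omega⟩, ⟨g.q - 1, by omega⟩} : Finset (Fin n)).card = 2 := by
    apply Finset.card_pair
    intro h
    have := congrArg Fin.val h
    simp only at this
    omega
  rw [← h4]
  exact Finset.card_le_card hsub

theorem card_letters {n : ℕ} (L : List (Gen n)) : ∀ S ∈ letters L, 2 ≤ S.card := by
  induction L with
  | nil => intro S hS; simp [letters] at hS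
  | cons g L ih =>
    intro S hS
    rw [letters, List.mem_cons, List.mem_map] at hS
    rcases hS with rfl | ⟨T, hT, rfl⟩
    · exact card_pts g
    · unfold mv
      rw [Finset.card_map]
      exact ih T hT

theorem even (hC : GoalCross) (hO : GoalOrd) (hL : GoalLam) : GoalEven := by
  intro n L k hk hp hw S
  exact hL n (letters L) (card_letters L) (hC n L k hk hp hw) (hO n L hp) S

/-- The finite subgroups of the cactus group. -/
def Classification : Prop := ∀ (n : ℕ) (G : Type) [Group G] [Finite G],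
  Embeds G (Cactus n) ↔ IsPGroup 2 G ∧ Embeds G (Equiv.Perm (Fin n))

theorem classification (hP : GoalPure) (hO : GoalOdd) (hS : GoalSyl) : Classification := by
  intro n G _ _
  constructor
  · rintro ⟨f, hf⟩
    refine ⟨?_, (rho n).comp f, ?_⟩
    · intro g
      obtain ⟨k, m, hm, hkm⟩ := Nat.exists_eq_two_pow_mul_odd (n := orderOf g) (orderOf_pos g).ne'
      refine ⟨k, ?_⟩
      apply hf
      rw [map_one]
      apply hO n (f (g ^ 2 ^ k)) m hm
      rw [← map_pow, ← pow_mul, ← hkm, pow_orderOf_eq_one, map_one]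
    · rw [injective_iff_map_eq_one]
      intro x hx
      apply hf
      rw [map_one]
      apply hP n (f x) (orderOf x) (orderOf_pos x) hx
      rw [← map_pow, pow_orderOf_eq_one, map_one]
  · rintro ⟨h1, h2⟩
    exact hS n G h1 h2

/-- The complete answer to the question: the if half of the criterion holds for every `n`,
the only if half exactly when `⌊n/2⌋` is a power of two or three times a power of two. -/
def Answer : Prop := ∀ n : ℕ, 2 ≤ n →
  (∀ (G : Type) [Group G] [Finite G],
    (∃ l : List ℕ, (∀ r ∈ l, 2 ≤ r) ∧ 2 * l.prod ≤ n ∧ Embeds G (W l)) → Embeds G (Cactus n)) ∧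
  ((∀ (G : Type) [Group G] [Finite G], Embeds G (Cactus n) →
      ∃ l : List ℕ, (∀ r ∈ l, 2 ≤ r) ∧ 2 * l.prod ≤ n ∧ Embeds G (W l)) ↔
    ∃ a : ℕ, n / 2 = 2 ^ a ∨ n / 2 = 3 * 2 ^ a)

theorem embeds_trans {G H K : Type} [Group G] [Group H] [Group K] (h1 : Embeds G H)
    (h2 : Embeds H K) : Embeds G K := by
  obtain ⟨f, hf⟩ := h1
  obtain ⟨g, hg⟩ := h2
  exact ⟨g.comp f, hg.comp hf⟩

theorem answer (hCl : Classification) (hW : GoalWPerm) (hWS : GoalWSyl) : Answer := by
  intro n hn
  refine ⟨?_, ?_, ?_⟩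
  · intro G _ _
    rintro ⟨l, hl, hln, h3⟩
    obtain ⟨h4, h5, h6⟩ := hW n l hl hln
    rw [hCl n G]
    obtain ⟨f, hf⟩ := h3
    exact ⟨h5.of_injective f hf, embeds_trans ⟨f, hf⟩ h6⟩
  · intro h
    by_contra hne
    obtain ⟨G, hG, hfin, h1, h2⟩ := negative n hne
    exact h2 (h G h1)
  · intro ha G _ _ h
    obtain ⟨h1, h2⟩ := (hCl n G).1 h
    obtain ⟨l, hl, hln, h3⟩ := hWS n hn ha
    exact ⟨l, hl, hln, h3 G h1 h2⟩

end Pool.Agent.Helper99.CT
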