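import Pool.Agent.Helper99.CT.TR
import Pool.Agent.Helper99.CT.Final
import Pool.Agent.Helper62.CT.DEL
import Pool.Agent.Helper46.CT.EXT
import Pool.Agent.Helper14.CT.SHO
import Pool.Agent.Helper67.CT.CRO
import Pool.Agent.Helper66.CT.ORD
import Pool.Agent.Helper9.CT.LAM
import Pool.Agent.Helper27.CT.PUR
import Pool.Agent.Helper33.CT.ODD
import Pool.Agent.Helper94.CT.SYL
import Pool.Agent.Helper35.CT.WPE
import Pool.Agent.Helper23.CT.WSY

/-! Project CT: the final theorems. -/

set_option autoImplicit false

namespace Pool.Agent.Helper99.CT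

theorem del_ : GoalDel := Pool.Agent.Helper62.CT.tr_del tr

theorem short_ : GoalShort := Pool.Agent.Helper14.CT.short Pool.Agent.Helper46.CT.ext_

theorem even_ : GoalEven :=
  even Pool.Agent.Helper67.CT.cross Pool.Agent.Helper66.CT.ord Pool.Agent.Helper9.CT.lam

theorem pure_ : GoalPure := Pool.Agent.Helper27.CT.pur del_ short_ even_

theorem odd_ : GoalOdd := Pool.Agent.Helper33.CT.odd del_ Pool.Agent.Helper46.CT.ext_ short_

theorem classification_ : Classification := classification pure_ odd_ Pool.Agent.Helper94.CT.syl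

theorem answer_ : Answer :=
  answer classification_ Pool.Agent.Helper35.CT.wperm
    (Pool.Agent.Helper23.CT.wsyl Pool.Agent.Helper35.CT.wperm)

end Pool.Agent.Helper99.CT
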