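import Mathlib
import Pool.Agent.Helper99.CT.Defs

/-! Packet TR: the action of the right-angled Coxeter group on reduced words. -/

set_option autoImplicit false

namespace Pool.Agent.Helper99.CT

section TR

variable {α : Type} [DecidableEq α] (C : α → α → Prop)

/-- projection to the letters `a`, `b` -/
def pr (a b : α) (u : List α) : List α := u.filter (fun x => decide (x = a ∨ x = b))

/-- equality of all projections to pairs of incompatible or equal letters -/
def Teq (u v : List α) : Prop := ∀ a b, (a = b ∨ ¬ C a b) → pr a b u = pr a b v

open Classical in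
/-- the operation of a letter -/
noncomputable def T (v : α) (u : List α) : List α := if First C v u then u.erase v else v :: u

variable {C}

theorem Teq.refl (u : List α) : Teq C u u := fun _ _ _ => rfl
theorem Teq.symm {u v : List α} (h : Teq C u v) : Teq C v u := fun a b hab => (h a b hab).symm
theorem Teq.trans {u v w : List α} (h : Teq C u v) (h' : Teq C v w) : Teq C u w :=
  fun a b hab => (h a b hab).trans (h' a b hab)

theorem pr_cons (a b x : α) (u : List α) :
    pr a b (x :: u) = if x = a ∨ x = b then x :: pr a b u else pr a b u := by
  unfold pr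
  rw [List.filter_cons]
  by_cases h : x = a ∨ x = b <;> simp [h]

theorem Teq.cons {u v : List α} (h : Teq C u v) (x : α) : Teq C (x :: u) (x :: v) := by
  intro a b hab
  rw [pr_cons, pr_cons, h a b hab]

theorem Teq.of_cons {u v : List α} {x : α} (h : Teq C (x :: u) (x :: v)) : Teq C u v := by
  intro a b hab
  have h1 := h a b hab
  rw [pr_cons, pr_cons] at h1
  split_ifs at h1
  · exact (List.cons.inj h1).2
  · exact h1

theorem filter_erase (p : α → Bool) (v : α) (u : List α) :
    (u.erase v).filter p = (u.filter p).erase v := by
  induction u with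
  | nil => rfl
  | cons x u ih =>
    by_cases hx : x = v
    · subst hx
      rw [List.erase_cons_head, List.filter_cons]
      by_cases hp : p x
      · simp [hp]
      · rw [if_neg hp]
        rw [List.erase_of_not_mem]
        intro hm
        exact hp (List.mem_filter.1 hm).2
    · rw [List.erase_cons_tail (by simpa using hx), List.filter_cons, List.filter_cons, ih]
      by_cases hp : p x
      · rw [if_pos hp, if_pos hp, List.erase_cons_tail (by simpa using hx)]
      · rw [if_neg hp, if_neg hp]

theorem Teq.erase {u v : List α} (h : Teq C u v) (x : α) : Teq C (u.erase x) (v.erase x) := by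
  intro a b hab
  have h1 := h a b hab
  unfold pr at *
  rw [filter_erase, filter_erase, h1]

theorem first_iff (hs : ∀ a b, C a b → C b a) (v : α) (u : List α) :
    First C v u ↔ ∀ b, (v = b ∨ ¬ C v b) → (pr v b u).head? = some v := by
  induction u with
  | nil =>
    constructor
    · intro h; exact h.elim
    · intro h
      have := h v (Or.inl rfl)
      simp [pr] at this
  | cons a u ih =>
    constructor
    · rintro (h | ⟨h1, h2⟩) b hb
      · subst h; rw [pr_cons]; simp
      · by_cases hav : a = v
        · subst hav; rw [pr_cons]; simp
        · have hab : a ≠ b := by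
            rintro rfl
            rcases hb with rfl | hb
            · exact hav rfl
            · exact hb (hs _ _ h1)
          rw [pr_cons, if_neg (by tauto)]
          exact ih.1 h2 b hb
    · intro h
      by_cases hav : a = v
      · exact Or.inl hav
      · have hC : C a v := by
          by_contra hC
          have := h a (Or.inr (fun h => hC (hs _ _ h)))
          rw [pr_cons] at this
          simp at this
          exact hav this
        refine Or.inr ⟨hC, ih.2 ?_⟩
        intro b hb
        have hab : a ≠ b := by
          rintro rfl
          rcases hb with rfl | hb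
          · exact hav rfl
          · exact hb (hs _ _ hC)
        have := h b hb
        rw [pr_cons, if_neg (by tauto)] at this
        exact this

theorem Teq.first (hs : ∀ a b, C a b → C b a) {u v : List α} (h : Teq C u v) (x : α) :
    First C x u ↔ First C x v := by
  rw [first_iff hs, first_iff hs]
  constructor
  · intro h1 b hb; rw [← h x b hb]; exact h1 b hb
  · intro h1 b hb; rw [h x b hb]; exact h1 b hb

theorem teq_swap {a b : α} (hC : C a b) (hne : a ≠ b) (hs : ∀ a b, C a b → C b a) (w : List α) :
    Teq C (a :: b :: w) (b :: a :: w) := by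
  intro p q hpq
  rw [pr_cons, pr_cons, pr_cons, pr_cons]
  by_cases h1 : a = p ∨ a = q
  · by_cases h2 : b = p ∨ b = q
    · exfalso
      rcases h1 with rfl | rfl <;> rcases h2 with rfl | rfl
      · exact hne rfl
      · rcases hpq with h | h
        · exact hne h
        · exact h hC
      · rcases hpq with h | h
        · exact hne h.symm
        · exact h (hs _ _ hC)
      · exact hne rfl
    · simp [h1, h2]
  · simp [h1]

theorem first_front {a : α} (hs : ∀ a b, C a b → C b a) {u : List α} (h : First C a u) :
    Teq C u (a :: u.erase a) := by
  induction u with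
  | nil => exact h.elim
  | cons x u ih =>
    by_cases hx : x = a
    · subst hx; rw [List.erase_cons_head]; exact Teq.refl _
    · rcases h with h | ⟨h1, h2⟩
      · exact absurd h hx
      · rw [List.erase_cons_tail (by simpa using hx)]
        exact ((ih h2).cons x).trans (teq_swap h1 hx hs _)

theorem first_erase {a x : α} (hne : a ≠ x) (hC : C a x) (w : List α) :
    First C x (w.erase a) ↔ First C x w := by
  induction w with
  | nil => rfl
  | cons y w ih =>
    by_cases hy : y = a
    · subst hy
      rw [List.erase_cons_head]
      constructor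
      · intro h; exact Or.inr ⟨hC, h⟩
      · rintro (h | ⟨-, h⟩)
        · exact absurd h hne
        · exact h
    · rw [List.erase_cons_tail (by simpa using hy)]
      show (y = x ∨ (C y x ∧ First C x (w.erase a))) ↔ (y = x ∨ (C y x ∧ First C x w))
      rw [ih]

theorem red_front {a : α} {u : List α} (h : First C a u) (hr : Red C u)
    (hs : ∀ a b, C a b → C b a) : Red C (a :: u.erase a) := by
  induction u with
  | nil => exact h.elim
  | cons x u ih =>
    by_cases hx : x = a
    · subst hx
      rw [List.erase_cons_head]
      exact hr
    · rcases h with h | ⟨h1, h2⟩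
      · exact absurd h hx
      · obtain ⟨k1, k2⟩ := ih h2 hr.2
        rw [List.erase_cons_tail (by simpa using hx)]
        refine ⟨?_, ?_, k2⟩
        · rintro (h | ⟨-, h⟩)
          · exact hx h
          · exact k1 h
        · intro h
          exact hr.1 ((first_erase (fun h => hx h.symm) (hs _ _ h1) u).1 h)

theorem red_teq (hs : ∀ a b, C a b → C b a) (u' : List α) : ∀ u : List α, Teq C u u' →
    Red C u → Red C u' := by
  induction u' with
  | nil => intro u _ _; trivial
  | cons a t ih =>
    intro u h hr
    have h1 : First C a u := (h.first hs a).2 (Or.inl rfl)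
    obtain ⟨k1, k2⟩ := red_front h1 hr hs
    have h3 : Teq C (u.erase a) t := ((first_front hs h1).symm.trans h).of_cons
    exact ⟨fun h4 => k1 ((h3.first hs a).2 h4), ih _ h3 k2⟩

theorem T_teq (hs : ∀ a b, C a b → C b a) {u u' : List α} (h : Teq C u u') (v : α) :
    Teq C (T C v u) (T C v u') := by
  unfold T
  by_cases h1 : First C v u
  · rw [if_pos h1, if_pos ((h.first hs v).1 h1)]
    exact h.erase v
  · rw [if_neg h1, if_neg (fun h2 => h1 ((h.first hs v).2 h2))]
    exact h.cons v

theorem T_red (hs : ∀ a b, C a b → C b a) {u : List α} (hr : Red C u) (v : α) :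
    Red C (T C v u) := by
  unfold T
  by_cases h1 : First C v u
  · rw [if_pos h1]; exact (red_front h1 hr hs).2
  · rw [if_neg h1]; exact ⟨h1, hr⟩

theorem T_T (hs : ∀ a b, C a b → C b a) {u : List α} (hr : Red C u) (v : α) :
    Teq C (T C v (T C v u)) u := by
  by_cases h1 : First C v u
  · have h2 : T C v u = u.erase v := by unfold T; rw [if_pos h1]
    rw [h2]
    have h3 : T C v (u.erase v) = v :: u.erase v := by
      unfold T; rw [if_neg (red_front h1 hr hs).1]
    rw [h3]
    exact (first_front hs h1).symm
  · have h2 : T C v u = v :: u := by unfold T; rw [if_neg h1]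
    rw [h2]
    have h3 : T C v (v :: u) = u := by
      unfold T; rw [if_pos (show First C v (v :: u) from Or.inl rfl), List.erase_cons_head]
    rw [h3]
    exact Teq.refl _

theorem first_T (hs : ∀ a b, C a b → C b a) {a b : α} (hC : C a b) (hne : a ≠ b) (u : List α) :
    First C a (T C b u) ↔ First C a u := by
  unfold T
  by_cases h1 : First C b u
  · rw [if_pos h1, first_erase (fun h => hne h.symm) (hs _ _ hC)]
  · rw [if_neg h1]
    constructor
    · rintro (h | ⟨-, h⟩)
      · exact absurd h.symm hne
      · exact h
    · intro h; exact Or.inr ⟨hs _ _ hC, h⟩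

theorem T_comm (hs : ∀ a b, C a b → C b a) {a b : α} (hC : C a b) (u : List α) :
    Teq C (T C a (T C b u)) (T C b (T C a u)) := by
  by_cases hne : a = b
  · subst hne; exact Teq.refl _
  have h1 := first_T hs hC hne u
  have h2 := first_T hs (hs _ _ hC) (fun h => hne h.symm) u
  by_cases ha : First C a u <;> by_cases hb : First C b u
  · have e1 : T C a (T C b u) = (u.erase b).erase a := by
      rw [T, if_pos (h1.2 ha), T, if_pos hb]
    have e2 : T C b (T C a u) = (u.erase a).erase b := by
      rw [T, if_pos (h2.2 hb), T, if_pos ha]
    rw [e1, e2, List.erase_comm]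
    exact Teq.refl _
  · have e1 : T C a (T C b u) = b :: u.erase a := by
      rw [T, if_pos (h1.2 ha), T, if_neg hb, List.erase_cons_tail (by simpa using fun h => hne h.symm)]
    have e2 : T C b (T C a u) = b :: u.erase a := by
      rw [T, if_neg (fun h => hb (h2.1 h)), T, if_pos ha]
    rw [e1, e2]
    exact Teq.refl _
  · have e1 : T C a (T C b u) = a :: u.erase b := by
      rw [T, if_neg (fun h => ha (h1.1 h)), T, if_pos hb]
    have e2 : T C b (T C a u) = a :: u.erase b := by
      rw [T, if_pos (h2.2 hb), T, if_neg ha, List.erase_cons_tail (by simpa using hne)]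
    rw [e1, e2]
    exact Teq.refl _
  · have e1 : T C a (T C b u) = a :: b :: u := by
      rw [T, if_neg (fun h => ha (h1.1 h)), T, if_neg hb]
    have e2 : T C b (T C a u) = b :: a :: u := by
      rw [T, if_neg (fun h => hb (h2.1 h)), T, if_neg ha]
    rw [e1, e2]
    exact teq_swap hC hne hs u

/-! relabeling -/

omit [DecidableEq α] in
theorem first_map {C : α → α → Prop} (π : AutC C) (v : α) (u : List α) :
    First C (π.1 v) (u.map π.1) ↔ First C v u := by
  induction u with
  | nil => rfl
  | cons a u ih =>
    show (π.1 a = π.1 v ∨ (C (π.1 a) (π.1 v) ∧ First C (π.1 v) (u.map π.1))) ↔ _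
    rw [ih, π.2 a v, π.1.injective.eq_iff]
    rfl

omit [DecidableEq α] in
theorem red_map {C : α → α → Prop} (π : AutC C) (u : List α) :
    Red C (u.map π.1) ↔ Red C u := by
  induction u with
  | nil => rfl
  | cons a u ih =>
    show (¬ First C (π.1 a) (u.map π.1) ∧ Red C (u.map π.1)) ↔ _
    rw [ih, first_map]
    rfl

theorem pr_map (π : Equiv.Perm α) (a b : α) (u : List α) :
    pr a b (u.map π) = (pr (π⁻¹ a) (π⁻¹ b) u).map π := by
  unfold pr
  rw [List.filter_map]
  congr 1
  apply List.filter_congr
  intro x _
  have h1 : (π x = a) ↔ (x = π⁻¹ a) := by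
    rw [Equiv.Perm.eq_inv_iff_eq]
  have h2 : (π x = b) ↔ (x = π⁻¹ b) := by
    rw [Equiv.Perm.eq_inv_iff_eq]
  simp only [Function.comp, h1, h2]

theorem teq_map {C : α → α → Prop} (π : AutC C) {u v : List α} (h : Teq C u v) :
    Teq C (u.map π.1) (v.map π.1) := by
  intro a b hab
  rw [pr_map, pr_map, h]
  rcases hab with h | h
  · exact Or.inl (by rw [h])
  · right
    intro h2
    apply h
    have h3 := (π.2 ((π.1)⁻¹ a) ((π.1)⁻¹ b)).2 h2
    simpa using h3

theorem T_map {C : α → α → Prop} (π : AutC C) (v : α) (u : List α) :
    T C (π.1 v) (u.map π.1) = (T C v u).map π.1 := by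
  by_cases h : First C v u
  · rw [T, if_pos ((first_map π v u).2 h), T, if_pos h, List.map_erase π.1.injective]
  · rw [T, if_neg (fun h2 => h ((first_map π v u).1 h2)), T, if_neg h]
    rfl

/-! the set of reduced words modulo equivalence -/

/-- reduced words modulo equality of projections -/
def qset (C : α → α → Prop) : Setoid {u : List α // Red C u} where
  r u v := Teq C u.1 v.1
  iseqv := ⟨fun _ => Teq.refl _, fun h => h.symm, fun h h' => h.trans h'⟩

/-- the letter action -/
noncomputable def tau (hs : ∀ a b, C a b → C b a) (v : α) : Equiv.Perm (Quotient (qset C)) where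
  toFun := Quotient.map (fun u => ⟨T C v u.1, T_red hs u.2 v⟩) (fun _ _ h => T_teq hs h v)
  invFun := Quotient.map (fun u => ⟨T C v u.1, T_red hs u.2 v⟩) (fun _ _ h => T_teq hs h v)
  left_inv := by
    intro q
    induction q using Quotient.inductionOn with
    | h u => exact Quotient.sound (T_T hs u.2 v)
  right_inv := by
    intro q
    induction q using Quotient.inductionOn with
    | h u => exact Quotient.sound (T_T hs u.2 v)

/-- the relabeling action -/
def muFun (π : AutC C) : Quotient (qset C) → Quotient (qset C) :=
  Quotient.map (fun u => ⟨u.1.map π.1, (red_map π u.1).2 u.2⟩) (fun _ _ h => teq_map π h)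

theorem muFun_mk (π : AutC C) (u : {u : List α // Red C u}) :
    muFun π (Quotient.mk (qset C) u) =
      Quotient.mk (qset C) ⟨u.1.map π.1, (red_map π u.1).2 u.2⟩ := rfl

theorem muFun_one (q : Quotient (qset C)) : muFun (1 : AutC C) q = q := by
  induction q using Quotient.inductionOn with
  | h u =>
    rw [muFun_mk]
    congr 1
    apply Subtype.ext
    simp

theorem muFun_mul (π σ : AutC C) (q : Quotient (qset C)) :
    muFun (π * σ) q = muFun π (muFun σ q) := by
  induction q using Quotient.inductionOn with
  | h u =>
    rw [muFun_mk, muFun_mk, muFun_mk]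
    congr 1
    apply Subtype.ext
    simp

/-- the relabeling homomorphism -/
def mu : AutC C →* Equiv.Perm (Quotient (qset C)) where
  toFun π :=
    { toFun := muFun π
      invFun := muFun π⁻¹
      left_inv := fun q => by rw [← muFun_mul, inv_mul_cancel, muFun_one]
      right_inv := fun q => by rw [← muFun_mul, mul_inv_cancel, muFun_one] }
  map_one' := by
    ext q
    exact muFun_one q
  map_mul' π σ := by
    ext q
    exact muFun_mul π σ q

theorem prod_red (hs : ∀ a b, C a b → C b a) (w : List α) (hw : Red C w) :
    (w.map (tau hs)).prod (Quotient.mk (qset C) ⟨[], trivial⟩) = Quotient.mk (qset C) ⟨w, hw⟩ := by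
  induction w with
  | nil => rfl
  | cons a w ih =>
    rw [List.map_cons, List.prod_cons, Equiv.Perm.mul_apply, ih hw.2]
    show Quotient.mk (qset C) ⟨T C a w, _⟩ = _
    congr 1
    apply Subtype.ext
    show T C a w = a :: w
    rw [T, if_neg hw.1]

/-- parity of the number of letters `v` -/
def par (v : α) : Quotient (qset C) → ZMod 2 :=
  Quotient.lift (fun u => ((u.1.count v : ℕ) : ZMod 2)) (by
    intro u u' h
    have h1 := h v v (Or.inl rfl)
    have h2 : ∀ w : List α, (pr v v w).length = w.count v := by
      intro w
      unfold pr
      rw [List.count, List.countP_eq_length_filter]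
      congr 1
      apply List.filter_congr
      intro x _
      rw [beq_eq_decide]
      simp
    rw [← h2, ← h2, h1])

theorem par_tau (hs : ∀ a b, C a b → C b a) (v a : α) (q : Quotient (qset C)) :
    par v (tau hs a q) = par v q + if a = v then 1 else 0 := by
  induction q using Quotient.inductionOn with
  | h u =>
    show (((T C a u.1).count v : ℕ) : ZMod 2) = ((u.1.count v : ℕ) : ZMod 2) + _
    by_cases hf : First C a u.1
    · have h1 : T C a u.1 = u.1.erase a := by rw [T, if_pos hf]
      have h2 : u.1.count v = (a :: u.1.erase a).count v := by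
        have h3 := first_front hs hf v v (Or.inl rfl)
        have h2 : ∀ w : List α, (pr v v w).length = w.count v := by
          intro w
          unfold pr
          rw [List.count, List.countP_eq_length_filter]
          congr 1
          apply List.filter_congr
          intro x _
          rw [beq_eq_decide]
          simp
        rw [← h2, ← h2, h3]
      rw [h1, h2, List.count_cons]
      by_cases hav : a = v
      · subst hav
        simp
        rw [add_assoc]
        have : (1 + 1 : ZMod 2) = 0 := by decide
        rw [this, add_zero]
      · simp [hav]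
    · have h1 : T C a u.1 = a :: u.1 := by rw [T, if_neg hf]
      rw [h1, List.count_cons]
      by_cases hav : a = v
      · subst hav
        simp
      · simp [hav]

theorem par_prod (hs : ∀ a b, C a b → C b a) (v : α) (w : List α) (q : Quotient (qset C)) :
    par v ((w.map (tau hs)).prod q) = par v q + ((w.count v : ℕ) : ZMod 2) := by
  induction w with
  | nil => simp
  | cons a w ih =>
    rw [List.map_cons, List.prod_cons, Equiv.Perm.mul_apply, par_tau, ih, List.count_cons]
    by_cases hav : a = v
    · subst hav; simp; ring
    · simp [hav]

theorem tr : GoalTR := by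
  intro α _ C hs hr
  refine ⟨Quotient (qset C), Quotient.mk (qset C) ⟨[], trivial⟩, tau hs, mu, ?_, ?_, ?_, ?_, ?_, ?_⟩
  · intro a
    ext q
    exact (tau hs a).left_inv q
  · intro a b hab
    ext q
    induction q using Quotient.inductionOn with
    | h u => exact Quotient.sound (T_comm hs hab u.1)
  · intro π a
    ext q
    induction q using Quotient.inductionOn with
    | h u =>
      show Quotient.mk (qset C) ⟨(T C a u.1).map π.1, _⟩ = Quotient.mk (qset C) ⟨T C (π.1 a) (u.1.map π.1), _⟩
      congr 1
      apply Subtype.ext
      exact (T_map π a u.1).symm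
  · intro π
    rfl
  · intro w hw hne hred
    rw [prod_red hs w hred] at hw
    have h1 : Teq C w [] := Quotient.exact hw
    cases w with
    | nil => exact hne rfl
    | cons a w =>
      have := h1 a a (Or.inl rfl)
      rw [pr_cons] at this
      simp [pr] at this
  · intro w hw v
    have h1 := par_prod hs v w (Quotient.mk (qset C) ⟨[], trivial⟩)
    rw [hw] at h1
    have h2 : ((w.count v : ℕ) : ZMod 2) = 0 := by
      have := add_left_cancel (a := par v (Quotient.mk (qset C) (⟨[], trivial⟩ : {u : List α // Red C u}))) (b := 0) (c := ((w.count v : ℕ) : ZMod 2)) (by rw [add_zero]; exact h1)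
      exact this.symm
    exact (ZMod.natCast_eq_zero_iff_even).1 h2

end TR

end Pool.Agent.Helper99.CT
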